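import Pool.Agent.Run7.h901.Conv5

/-!
MP_506470_co: the classification of the countably infinite set-homogeneous graphs.

They are, up to isomorphism: the infinite countable disjoint unions of complete graphs of equal size
and their complements, the generic `K_m`-free graphs for `m ≥ 3` and their complements, the random
graph, the undirected graph `R3` of the myopic local order `S(3)`, and the complement of `R3`.
-/

namespace Pool.Agent.Results.MP_506470_co.Classification

universe u
variable {V : Type u}

/-- Any two isomorphic finite induced subgraphs are taken one onto the other by an automorphism. -/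
def SetHomogeneous (G : SimpleGraph V) : Prop :=
  ∀ A B : Set V, A.Finite → B.Finite → Nonempty (G.induce A ≃g G.induce B) →
    ∃ φ : G ≃g G, φ '' A = B

/-- The disjoint union of complete graphs with vertex set `β`, one for each member of `α`. -/
def CliqueUnion (α β : Type u) : SimpleGraph (α × β) where
  Adj p q := p.1 = q.1 ∧ p.2 ≠ q.2
  symm := ⟨fun _ _ h => ⟨h.1.symm, h.2.symm⟩⟩
  loopless := ⟨fun _ h => h.2 rfl⟩

/-- There is no complete subgraph on `m` vertices, and for all disjoint finite sets `A`, `B` of
vertices such that `A` contains no complete subgraph on `m - 1` vertices there is a vertex outside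
of `A` and `B` adjacent to all members of `A` and to no member of `B`. -/
def IsGeneric (m : ℕ) (G : SimpleGraph V) : Prop :=
  G.CliqueFree m ∧ ∀ A B : Finset V, Disjoint A B → G.CliqueFreeOn (A : Set V) (m - 1) →
    ∃ v : V, v ∉ A ∧ v ∉ B ∧ (∀ a ∈ A, G.Adj v a) ∧ ∀ b ∈ B, ¬ G.Adj v b

/-- For all disjoint finite sets `A`, `B` of vertices there is a vertex outside of `A` and `B`
adjacent to all members of `A` and to no member of `B`. -/
def IsRandom (G : SimpleGraph V) : Prop :=
  ∀ A B : Finset V, Disjoint A B →
    ∃ v : V, v ∉ A ∧ v ∉ B ∧ (∀ a ∈ A, G.Adj v a) ∧ ∀ b ∈ B, ¬ G.Adj v b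

/-- The dyadic rationals of `[0, 1)`, seen as points of a circle of length `1`. -/
def Pt : Type := {x : ℚ // 0 ≤ x ∧ x < 1 ∧ ∃ (k : ℕ) (z : ℤ), x * 2 ^ k = z}

/-- Two points are adjacent if their distance on the circle of length `1` is less than `1 / 3`. -/
def R3 : SimpleGraph Pt where
  Adj x y := x ≠ y ∧ (|x.1 - y.1| < 1 / 3 ∨ 2 / 3 < |x.1 - y.1|)
  symm := ⟨fun x y h => by rw [abs_sub_comm]; exact ⟨h.1.symm, h.2⟩⟩
  loopless := ⟨fun _ h => h.1 rfl⟩

/-- **Classification of the countably infinite set-homogeneous graphs.** -/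
theorem result :
    ∃ (R : SimpleGraph ℕ) (H : ℕ → SimpleGraph ℕ),
      IsRandom R ∧ (∀ m, 3 ≤ m → IsGeneric m (H m)) ∧
      ∀ (V : Type u) [Countable V] [Infinite V] (G : SimpleGraph V),
        SetHomogeneous G ↔
          (∃ α β : Type u, Nonempty (G ≃g CliqueUnion α β) ∨ Nonempty (Gᶜ ≃g CliqueUnion α β)) ∨
          (∃ m, 3 ≤ m ∧ (Nonempty (G ≃g H m) ∨ Nonempty (Gᶜ ≃g H m))) ∨
          Nonempty (G ≃g R) ∨ Nonempty (G ≃g R3) ∨ Nonempty (Gᶜ ≃g R3) :=
  Run7.h901.classification

end Pool.Agent.Results.MP_506470_co.Classification
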